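import Pool.Agent.Helper24.MA.Perm.Trans

/-!
# gr of a permutation module (module MA-14)

CLAIM: `gr p (permRep k E Ω) ≤ |Ω^E|`. PROOF. `ι` = the set of orbits (`MulAction.orbitRel.Quotient E Ω`), for an orbit `o` the space `V o` of
functions on `o` (`o.orbit`) with `permRep k E o.orbit`, `A o` = extension by zero, `B o` = restriction; `∑ A o B o = 1`.
`gr_sum_eq` gives `gr p (permRep k E Ω) = ∑ gr p (permRep k E o.orbit)`. If `o` has a point moved by some `x` the summand is `0`
(`gr_perm_eq_zero`). Otherwise `o` is a single fixed point and the summand is at most `1` (`hrk` is at most the dimension `1`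
of the space). The number of these orbits is the number of fixed points.
-/

open TensorProduct

namespace Pool.Agent.Helper24.MA

theorem gr_perm_le (p : ℕ) [Fact p.Prime] {k E Ω : Type} [Field k] [CharP k p] [Group E]
    [Fintype E] (hE : ElAb p E) [Finite Ω] [MulAction E Ω] :
    gr p (permRep k E Ω) ≤ Nat.card (MulAction.fixedPoints E Ω) := by
  classical
  have : Finite (MulAction.orbitRel.Quotient E Ω) := Quotient.finite _
  have : Fintype (MulAction.orbitRel.Quotient E Ω) := Fintype.ofFinite _
  have hfo : ∀ o : MulAction.orbitRel.Quotient E Ω, Finite o.orbit := fun o => Subtype.finite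
  let A : ∀ o : MulAction.orbitRel.Quotient E Ω, (o.orbit → k) →ₗ[k] (Ω → k) := fun o =>
    { toFun := fun f ω => if h : ω ∈ o.orbit then f ⟨ω, h⟩ else 0
      map_add' := fun f g => by
        ext ω
        by_cases h : ω ∈ o.orbit <;> simp [h]
      map_smul' := fun c f => by
        ext ω
        by_cases h : ω ∈ o.orbit <;> simp [h] }
  have hAap : ∀ (o : MulAction.orbitRel.Quotient E Ω) (f : o.orbit → k) (ω : Ω),
      A o f ω = if h : ω ∈ o.orbit then f ⟨ω, h⟩ else 0 := fun _ _ _ => rfl
  let B : ∀ o : MulAction.orbitRel.Quotient E Ω, (Ω → k) →ₗ[k] (o.orbit → k) := fun o =>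
    LinearMap.funLeft k k Subtype.val
  have hBap : ∀ (o : MulAction.orbitRel.Quotient E Ω) (F : Ω → k) (ω : o.orbit),
      B o F ω = F ω.1 := fun _ _ _ => rfl
  have hPap : ∀ (X : Type) [MulAction E X] (x : E) (F : X → k) (ω : X),
      permRep k E X x F ω = F (x⁻¹ • ω) := fun _ _ _ _ _ => rfl
  have hmem : ∀ (o : MulAction.orbitRel.Quotient E Ω) (x : E) (ω : Ω),
      x⁻¹ • ω ∈ o.orbit ↔ ω ∈ o.orbit := by
    intro o x ω
    rw [MulAction.orbitRel.Quotient.mem_orbit, MulAction.orbitRel.Quotient.mem_orbit]
    have : (Quotient.mk'' (x⁻¹ • ω) : MulAction.orbitRel.Quotient E Ω) = Quotient.mk'' ω :=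
      Quotient.sound' (MulAction.orbitRel_apply.2 (MulAction.mem_orbit _ _))
    rw [this]
  have key : ∑ o : MulAction.orbitRel.Quotient E Ω, gr p (permRep k E o.orbit) =
      gr p (permRep k E Ω) := by
    refine gr_sum_eq p hE (fun o : MulAction.orbitRel.Quotient E Ω => permRep k E o.orbit)
      (permRep k E Ω) A B ?_ ?_ ?_ ?_ ?_
    · intro o
      refine LinearMap.ext fun f => funext fun ω => ?_
      rw [LinearMap.comp_apply, hBap, hAap, dif_pos ω.2, LinearMap.id_apply]
    · intro i j hij
      refine LinearMap.ext fun f => funext fun ω => ?_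
      rw [LinearMap.comp_apply, hBap, hAap, dif_neg, LinearMap.zero_apply, Pi.zero_apply]
      intro h
      rw [MulAction.orbitRel.Quotient.mem_orbit] at h
      have h2 := ω.2
      rw [MulAction.orbitRel.Quotient.mem_orbit] at h2
      exact hij (h2.symm.trans h)
    · intro o x
      refine LinearMap.ext fun f => funext fun ω => ?_
      rw [LinearMap.comp_apply, LinearMap.comp_apply, hAap, hPap, hAap]
      by_cases h : ω ∈ o.orbit
      · rw [dif_pos h, dif_pos ((hmem o x ω).2 h), hPap]
        rfl
      · rw [dif_neg h, dif_neg (fun h' => h ((hmem o x ω).1 h'))]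
    · intro o x
      refine LinearMap.ext fun F => funext fun ω => ?_
      rw [LinearMap.comp_apply, LinearMap.comp_apply, hBap, hPap, hPap, hBap]
      rfl
    · refine LinearMap.ext fun F => funext fun ω => ?_
      rw [LinearMap.sum_apply, Finset.sum_apply, LinearMap.id_apply]
      rw [Finset.sum_eq_single (Quotient.mk'' ω : MulAction.orbitRel.Quotient E Ω)]
      · rw [LinearMap.comp_apply, hAap, dif_pos (MulAction.orbitRel.Quotient.mem_orbit.2 rfl), hBap]
      · intro o _ ho
        rw [LinearMap.comp_apply, hAap, dif_neg]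
        intro h
        exact ho (MulAction.orbitRel.Quotient.mem_orbit.1 h).symm
      · intro h
        exact absurd (Finset.mem_univ _) h
  rw [← key]
  have hb : ∀ o : MulAction.orbitRel.Quotient E Ω, gr p (permRep k E o.orbit) ≤
      if (∀ (x : E) (ω : o.orbit), x • ω = ω) then 1 else 0 := by
    intro o
    split_ifs with h
    · have h1 : Nat.card o.orbit = 1 := by
        rw [Nat.card_eq_one_iff_unique]
        refine ⟨⟨fun a b => ?_⟩, ?_⟩
        · obtain ⟨x, hx⟩ := MulAction.exists_smul_eq E a b
          rw [← hx, h]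
        · obtain ⟨ω, hω⟩ := MulAction.orbitRel.Quotient.nonempty_orbit o
          exact ⟨⟨ω, hω⟩⟩
      have : Fintype o.orbit := Fintype.ofFinite _
      have h2 : Module.finrank (Kf k E) (Kf k E ⊗[k] (o.orbit → k)) = 1 := by
        rw [Module.finrank_baseChange, Module.finrank_fintype_fun_eq_card, ← Nat.card_eq_fintype_card,
          h1]
      unfold gr hrk
      refine (Nat.sub_le _ _).trans ?_
      rw [← h2]
      exact Submodule.finrank_le _
    · push Not at h
      exact (gr_perm_eq_zero p hE h).le
  refine (Finset.sum_le_sum fun o _ => hb o).trans ?_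
  rw [Finset.sum_ite, Finset.sum_const_zero, add_zero, Finset.sum_const, smul_eq_mul, mul_one,
    ← Fintype.card_subtype]
  have : Fintype (MulAction.fixedPoints E Ω) := Fintype.ofFinite _
  rw [Nat.card_eq_fintype_card]
  refine Fintype.card_le_of_injective
    (fun o : {o : MulAction.orbitRel.Quotient E Ω // ∀ (x : E) (ω : o.orbit), x • ω = ω} =>
      (⟨(MulAction.orbitRel.Quotient.nonempty_orbit o.1).some, fun x => ?_⟩ : MulAction.fixedPoints E Ω)) ?_
  · have h := o.2 x ⟨(MulAction.orbitRel.Quotient.nonempty_orbit o.1).some, (MulAction.orbitRel.Quotient.nonempty_orbit o.1).some_mem⟩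
    exact congrArg Subtype.val h
  · intro o o' h
    have h1 : (MulAction.orbitRel.Quotient.nonempty_orbit o.1).some = (MulAction.orbitRel.Quotient.nonempty_orbit o'.1).some := congrArg Subtype.val h
    have h2 := MulAction.orbitRel.Quotient.mem_orbit.1 (MulAction.orbitRel.Quotient.nonempty_orbit o.1).some_mem
    have h3 := MulAction.orbitRel.Quotient.mem_orbit.1 (MulAction.orbitRel.Quotient.nonempty_orbit o'.1).some_mem
    rw [h1] at h2
    exact Subtype.ext (h2.symm.trans h3)

end Pool.Agent.Helper24.MA
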