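import Pool.Agent.Helper24.MA.Op.SpPow
import Pool.Agent.Helper24.MA.Rk.Sp

/-!
# A nontrivial transitive permutation module has gr = 0 (module MA-13)

PROOF. Let `x0` move some point; since `E` is commutative and transitive, `x0` moves every point, and since `x0 ^ p = 1` with `p`
prime every orbit of `⟨x0⟩` has `p` elements (`x0 ^ i ω = ω` with `0 < i < p` gives `x0 ω = ω`). Let `P = permRep k E Ω x0` (an operator on
`Ω → k`) and `n = P - 1`. `n ^ p = 0` and `n ^ (p-1) = ∑_(i<p) P ^ i` in characteristic `p`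
(`(X-1) ^ (p-1) = ∑ X ^ i`, for example `(X - 1) * ∑ X ^ i = X ^ p - 1 = (X - 1) ^ p` in `k[X]`). If `n F = 0` then `F` is constant on the orbits of
`⟨x0⟩`; choose a set `S` of representatives of these orbits; then `F = ∑_(i<p) P ^ i (F 1_S)`. So `ker n = range (n ^ (p-1))` and with
`hrk_eq`: `rank n + rank (n ^ (p-1)) = |Ω|` (over `k`). By `finrank_famOp_le` with `F := k`, `c := 1` at `x0`, `0` elsewhere
(`spOp k ρ c` is `(ρ x0 - 1).baseChange k`, same ranks as `ρ x0 - 1`) the generic operator `u` has `rank u ≥ rank n`,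
`rank (u ^ (p-1)) ≥ rank (n ^ (p-1))`, so `gr = |Ω| - rank u - rank (u ^ (p-1)) = 0` (`hrk_eq`, `spOp_pow`).
Note `spOp F ρ c = famOp F (fun x => ρ x - 1) c` holds by `rfl`.
-/

open TensorProduct

namespace Pool.Agent.Helper24.MA

private theorem tr_finrank_baseChange_self {k V : Type} [Field k] [AddCommGroup V] [Module k V]
    (f : V →ₗ[k] V) : Module.finrank k (LinearMap.range (f.baseChange k)) =
      Module.finrank k (LinearMap.range f) := by
  have h : (TensorProduct.lid k V).toLinearMap ∘ₗ f.baseChange k =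
      f ∘ₗ (TensorProduct.lid k V).toLinearMap := by
    ext v
    simp
  have h2 : LinearMap.range f =
      (LinearMap.range (f.baseChange k)).map (TensorProduct.lid k V).toLinearMap := by
    rw [← LinearMap.range_comp, h,
      LinearMap.range_comp_of_range_eq_top _ (LinearEquiv.range _)]
  rw [h2, LinearEquiv.finrank_map_eq]

/-- `(X - 1) ^ (p - 1) = ∑ X ^ i` in characteristic `p`, evaluated at an operator -/
private theorem tr_pow_eq_sum {k V : Type} [Field k] [AddCommGroup V] [Module k V] (p : ℕ)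
    [Fact p.Prime] [CharP k p] (P : Module.End k V) :
    (P - 1) ^ (p - 1) = ∑ i ∈ Finset.range p, P ^ i := by
  have hp : p.Prime := Fact.out
  have h : (Polynomial.X - 1 : Polynomial k) ^ (p - 1) =
      ∑ i ∈ Finset.range p, Polynomial.X ^ i := by
    have hX : (Polynomial.X - 1 : Polynomial k) ≠ 0 := Polynomial.X_sub_C_ne_zero (1 : k)
    apply mul_left_cancel₀ hX
    rw [mul_geom_sum, ← pow_succ', Nat.sub_add_cancel hp.one_le, sub_pow_char, one_pow]
  have h2 := congrArg (Polynomial.aeval P) h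
  simpa using h2

section perm

variable {Ω : Type} {E : Type} [Group E] [MulAction E Ω]

/-- orbit representative -/
private theorem tr_exists_rep (p : ℕ) (hp : 0 < p) (y : E) (hy : y ^ p = 1) :
    ∃ r : Ω → Ω, (∀ ω, ∃ j < p, r ω = y ^ j • ω) ∧ ∀ ω (i : ℕ), r (y ^ i • ω) = r ω := by
  classical
  let s : Setoid Ω := MulAction.orbitRel (Subgroup.zpowers y) Ω
  refine ⟨fun ω => Quotient.out (Quotient.mk s ω), fun ω => ?_, fun ω i => ?_⟩
  · have h1 : s (Quotient.out (Quotient.mk s ω)) ω := Quotient.exact (Quotient.out_eq _)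
    have h2 : Quotient.out (Quotient.mk s ω) ∈ MulAction.orbit (Subgroup.zpowers y) ω := h1
    obtain ⟨⟨g, hg⟩, h3⟩ := h2
    obtain ⟨m, rfl⟩ := Subgroup.mem_zpowers_iff.mp hg
    have hpz : (p : ℤ) ≠ 0 := by exact_mod_cast hp.ne'
    refine ⟨(m % p).toNat, ?_, ?_⟩
    · have := Int.emod_lt_of_pos m (by exact_mod_cast hp : (0 : ℤ) < p)
      have h0 := Int.emod_nonneg m hpz
      omega
    · have h0 := Int.emod_nonneg m hpz
      have h4 : y ^ (m % p).toNat = y ^ m := by
        rw [← zpow_natCast, Int.toNat_of_nonneg h0]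
        have h5 : y ^ m = y ^ (m % p + p * (m / p)) := by rw [Int.emod_add_mul_ediv]
        rw [h5, zpow_add, zpow_mul, zpow_natCast, hy, one_zpow, mul_one]
      rw [h4]
      exact h3.symm
  · have h1 : Quotient.mk s (y ^ i • ω) = Quotient.mk s ω := by
      apply Quotient.sound
      show (y ^ i • ω) ∈ MulAction.orbit (Subgroup.zpowers y) ω
      exact ⟨⟨y ^ i, Subgroup.npow_mem_zpowers y i⟩, rfl⟩
    show Quotient.out (Quotient.mk s (y ^ i • ω)) = Quotient.out (Quotient.mk s ω)
    rw [h1]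

/-- free action of a cyclic group of prime order -/
private theorem tr_inj (p : ℕ) (hp : p.Prime) (y : E) (hy : y ^ p = 1)
    (hf : ∀ ω : Ω, y • ω ≠ ω) (ω : Ω) {i j : ℕ} (hi : i < p) (hj : j < p)
    (h : y ^ i • ω = y ^ j • ω) : i = j := by
  wlog hij : i ≤ j generalizing i j
  · exact (this hj hi h.symm (le_of_not_ge hij)).symm
  by_contra hne
  have hlt : i < j := lt_of_le_of_ne hij hne
  have h1 : y ^ (j - i) • ω = ω := by
    have h2 : y ^ i • ω = y ^ i • (y ^ (j - i) • ω) := by
      rw [← mul_smul, ← pow_add, Nat.add_sub_cancel' hij, h]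
    exact (smul_left_cancel _ h2).symm
  have hco : Nat.Coprime (j - i) p :=
    (Nat.coprime_of_lt_prime (by omega) (by omega) hp).symm
  have h3 : ∀ n : ℕ, y ^ ((j - i) * n) • ω = ω := by
    intro n
    induction n with
    | zero => simp
    | succ n ih => rw [Nat.mul_succ, pow_add, mul_smul, h1, ih]
  obtain ⟨m, -, hm⟩ := Nat.exists_mul_mod_eq_one_of_coprime hco hp.one_lt
  have h4 := h3 m
  have h5 : y ^ ((j - i) * m) = y := by
    rw [← Nat.mod_add_div ((j - i) * m) p, hm, pow_add, pow_mul, hy, one_pow, mul_one, pow_one]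
  rw [h5] at h4
  exact hf ω h4

end perm

theorem gr_perm_eq_zero (p : ℕ) [Fact p.Prime] {k E Ω : Type} [Field k] [CharP k p] [Group E]
    [Fintype E] (hE : ElAb p E) [Finite Ω] [MulAction E Ω] [MulAction.IsPretransitive E Ω]
    (h : ∃ (x : E) (ω : Ω), x • ω ≠ ω) : gr p (permRep k E Ω) = 0 := by
  classical
  have hp : p.Prime := Fact.out
  obtain ⟨x0, ω0, hx0⟩ := h
  have hfree : ∀ ω : Ω, x0⁻¹ • ω ≠ ω := by
    intro ω hω
    apply hx0
    obtain ⟨g, hg⟩ := MulAction.exists_smul_eq E ω ω0
    have h1 : x0 • ω = ω := by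
      conv_lhs => rw [← hω]
      rw [smul_inv_smul]
    rw [← hg, ← mul_smul, hE.comm, mul_smul, h1]
  have hy : (x0⁻¹) ^ p = 1 := hE.pow _
  obtain ⟨r, hr1, hr2⟩ := tr_exists_rep (Ω := Ω) p hp.pos x0⁻¹ hy
  have := Fintype.ofFinite Ω
  set ρ := permRep k E Ω with hρ
  set P : Module.End k (Ω → k) := ρ x0 with hP
  have hPpow : ∀ (i : ℕ) (F : Ω → k) (ω : Ω), (P ^ i) F ω = F ((x0⁻¹) ^ i • ω) := by
    intro i
    induction i with
    | zero => intro F ω; simp
    | succ i ih =>
      intro F ω
      rw [pow_succ, Module.End.mul_apply, ih]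
      show F (x0⁻¹ • ((x0⁻¹) ^ i • ω)) = _
      rw [← mul_smul, ← pow_succ']
  have hker : LinearMap.ker (P - 1) ≤ LinearMap.range ((P - 1) ^ (p - 1)) := by
    intro F hF
    have hF1 : P F = F := by
      have : P F - F = 0 := hF
      exact sub_eq_zero.mp this
    have hF2 : ∀ i : ℕ, (P ^ i) F = F := by
      intro i
      induction i with
      | zero => simp
      | succ i ih => rw [pow_succ, Module.End.mul_apply, hF1, ih]
    refine ⟨fun ω => if r ω = ω then F ω else 0, ?_⟩
    rw [tr_pow_eq_sum p P]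
    ext ω
    rw [LinearMap.sum_apply, Finset.sum_apply]
    obtain ⟨j, hj, hrj⟩ := hr1 ω
    rw [Finset.sum_eq_single j]
    · rw [hPpow]
      have h1 : r ((x0⁻¹) ^ j • ω) = (x0⁻¹) ^ j • ω := by rw [hr2, hrj]
      rw [if_pos h1, ← hPpow j F ω, hF2]
    · intro i hi hne
      rw [hPpow]
      rw [if_neg]
      intro h1
      rw [hr2, hrj] at h1
      exact hne (tr_inj p hp x0⁻¹ hy hfree ω hj (Finset.mem_range.mp hi) h1).symm
    · intro h1
      exact absurd (Finset.mem_range.mpr hj) h1
  have hdim : Fintype.card Ω ≤ Module.finrank k (LinearMap.range (P - 1)) +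
      Module.finrank k (LinearMap.range ((P - 1) ^ (p - 1))) := by
    have h1 := LinearMap.finrank_range_add_finrank_ker (P - 1)
    rw [Module.finrank_fintype_fun_eq_card] at h1
    have h2 := Submodule.finrank_mono hker
    omega
  -- specialisation
  set A : E → ((Ω → k) →ₗ[k] (Ω → k)) := fun x => ρ x - 1 with hA
  have hfam : famOp k A (Pi.single x0 1) = (P - 1).baseChange k := by
    unfold famOp
    rw [Finset.sum_eq_single x0]
    · rw [Pi.single_eq_same, one_smul]
    · intro x _ hx
      rw [Pi.single_eq_of_ne hx, zero_smul]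
    · intro h1
      exact absurd (Finset.mem_univ _) h1
  have hsp : ∀ j : ℕ, Module.finrank k (LinearMap.range ((P - 1) ^ j)) ≤
      Module.finrank (Kf k E) (LinearMap.range (spOp (Kf k E) ρ (tv k) ^ j)) := by
    intro j
    have h1 := finrank_famOp_le (F := k) A (Pi.single x0 1) j
    rw [hfam] at h1
    have h2 : ((P - 1).baseChange k) ^ j = ((P - 1) ^ j).baseChange k :=
      by rw [LinearMap.baseChange_pow]
    rw [h2, tr_finrank_baseChange_self] at h1
    exact h1
  have hu := hrk_eq p hp.pos (spOp (Kf k E) ρ (tv k)) (spOp_pow p hE ρ (tv k))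
  rw [Module.finrank_baseChange, Module.finrank_fintype_fun_eq_card] at hu
  have h1 := hsp 1
  have h2 := hsp (p - 1)
  rw [pow_one, pow_one] at h1
  unfold gr
  omega

end Pool.Agent.Helper24.MA
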